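import Pool.Agent.Lib.MP_28303a_al.NT92.Red
import Pool.Agent.Lib.MP_28303a_al.NT.Fin
import Pool.Agent.Lib.MP_28303a_al.TT.H91.Sub

/-! # Groups with a homomorphism to `GL₂(A)`, `A` a commutative ring of positive characteristic,
with torsionfree image -/

set_option autoImplicit false
set_option linter.unusedSectionVars false

namespace Pool.Agent.NegK.NT92

universe u v

open Matrix WithZero Pool.Agent.NegK.TT Pool.Agent.NegK.TW Pool.Agent.NegK.NT

/-- The theorem on products of trees for the class `𝒞`. -/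
def TreesRC (𝒞 : (G : Type u) → [Group G] → Prop) : Prop :=
  ∀ (Γ : Type u) [Group Γ] (Y : Trees Γ), (∀ v, InRC (Y.st v)) → (∀ v, 𝒞 (Y.st v)) → 𝒞 Γ

theorem mem_st {Γ : Type u} [Group Γ] (Y : Trees Γ) (v : ∀ i, Y.V i) (g : Γ) :
    g ∈ Y.st v ↔ ∀ i, g • v i = v i := by
  rw [Trees.st, Subgroup.mem_iInf]
  rfl

/-- Let `A` be a commutative ring of positive characteristic and `φ : Γ → GL₂(A)` a homomorphism
with torsionfree image. If all groups which embed into the kernel of `φ` are in `ℛ` and in `𝒞`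
then `Γ` is in `𝒞`. -/
theorem gl2_gen {𝒞 : (G : Type u) → [Group G] → Prop} (hU : NT.H66.ClosedLoc 𝒞)
    (hT : TreesRC 𝒞) (N : ℕ) (hN : N ≠ 0) (A : Type u) [CommRing A] (hA : (N : A) = 0)
    (Γ : Type u) [Group Γ] (φ : Γ →* GL (Fin 2) A)
    (htf : ∀ (g : Γ) (n : ℕ), 0 < n → φ g ^ n = 1 → φ g = 1)
    (hker : ∀ (H : Type u) [Group H] (f : H →* Γ), Function.Injective f →
      (∀ h, φ (f h) = 1) → InRC H ∧ 𝒞 H) : 𝒞 Γ := by
  classical
  have : NeZero N := ⟨hN⟩
  obtain ⟨c, hc⟩ := CharP.exists A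
  let _ : Algebra (ZMod N) A := ZMod.algebra' A c ((CharP.cast_eq_zero_iff A c N).1 hA)
  refine hU Γ fun S => ⟨Subgroup.closure (S : Set Γ), fun s hs => Subgroup.subset_closure hs, ?_⟩
  let R : Finset A := S.biUnion fun s => Finset.univ.biUnion fun i : Fin 2 =>
    Finset.univ.biUnion fun j : Fin 2 => {(φ s : Matrix (Fin 2) (Fin 2) A) i j,
      ((φ s)⁻¹ : GL (Fin 2) A).1 i j}
  let B : Subalgebra (ZMod N) A := Algebra.adjoin (ZMod N) (R : Set A)
  have hB : Algebra.FiniteType (ZMod N) B :=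
    (Subalgebra.fg_iff_finiteType B).1 ⟨R, rfl⟩
  have hinj : Function.Injective (GeneralLinearGroup.map (n := Fin 2) (algebraMap B A)) := by
    intro g g' h
    refine Units.ext ?_
    ext i j
    exact congrArg (fun x : GL (Fin 2) A => (x : Matrix (Fin 2) (Fin 2) A) i j) h
  have hcl : Subgroup.closure (S : Set Γ) ≤
      (GeneralLinearGroup.map (n := Fin 2) (algebraMap B A)).range.comap φ := by
    rw [Subgroup.closure_le]
    intro s hs
    have hmem : ∀ i j, (φ s : Matrix (Fin 2) (Fin 2) A) i j ∈ B ∧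
        ((φ s)⁻¹ : GL (Fin 2) A).1 i j ∈ B := fun i j => by
      constructor
      all_goals
        refine Algebra.subset_adjoin (Finset.mem_coe.2 (Finset.mem_biUnion.2 ⟨s, hs,
          Finset.mem_biUnion.2 ⟨i, Finset.mem_univ _, Finset.mem_biUnion.2
            ⟨j, Finset.mem_univ _, ?_⟩⟩⟩))
        simp
    refine ⟨⟨Matrix.of fun i j => ⟨_, (hmem i j).1⟩, Matrix.of fun i j => ⟨_, (hmem i j).2⟩,
      ?_, ?_⟩, ?_⟩
    · ext i j
      have h1 := congrArg (fun x : Matrix (Fin 2) (Fin 2) A => x i j) (φ s).mul_inv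
      rw [Matrix.mul_apply, Fin.sum_univ_two] at h1 ⊢
      refine Eq.trans h1 ?_
      rw [Matrix.one_apply, Matrix.one_apply]
      split_ifs <;> rfl
    · ext i j
      have h1 := congrArg (fun x : Matrix (Fin 2) (Fin 2) A => x i j) (φ s).inv_mul
      rw [Matrix.mul_apply, Fin.sum_univ_two] at h1 ⊢
      refine Eq.trans h1 ?_
      rw [Matrix.one_apply, Matrix.one_apply]
      split_ifs <;> rfl
    · refine Units.ext ?_
      ext i j
      rfl
  let e := (MonoidHom.ofInjective hinj).symm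
  let ψ : Subgroup.closure (S : Set Γ) →* GL (Fin 2) B :=
    e.toMonoidHom.comp ((φ.comp (Subgroup.closure (S : Set Γ)).subtype).codRestrict _
      fun g => hcl g.2)
  have hψ : ∀ g, GeneralLinearGroup.map (n := Fin 2) (algebraMap B A) (ψ g) = φ g.1 := fun g =>
    congrArg Subtype.val ((MonoidHom.ofInjective hinj).apply_symm_apply ⟨φ g.1, hcl g.2⟩)
  obtain ⟨m, V, iV, T, hT1, hT2⟩ := (trees_ring N B _ ψ).fin
  let Y : Trees (Subgroup.closure (S : Set Γ)) := ⟨m, V, iV, T, hT1⟩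
  have key : ∀ v, InRC (Y.st v) ∧ 𝒞 (Y.st v) := fun v => by
    refine hker (Y.st v) ((Subgroup.closure (S : Set Γ)).subtype.comp (Y.st v).subtype)
      (fun a b h => Subtype.ext (Subtype.ext h)) fun h => ?_
    obtain ⟨n, hn, h1⟩ := hT2 h.1 v ((mem_st Y v h.1).1 h.2)
    refine htf _ n hn ?_
    have h2 := congrArg (GeneralLinearGroup.map (n := Fin 2) (algebraMap B A)) h1
    rw [map_pow, hψ, map_one] at h2
    exact h2
  exact hT _ Y (fun v => (key v).1) fun v => (key v).2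

/-- The kernel is in `ℛ`. -/
theorem gl2_ker (hU : NT.H66.ClosedLoc.{u} fun G _ => H19.InL G)
    (hT : ∀ (Γ : Type u) [Group Γ] (Y : Trees Γ), (∀ v, InRC (Y.st v)) → H19.InL Γ)
    (hRL : ∀ (G : Type u) [Group G], InRC G → H19.InL G)
    (N : ℕ) (hN : N ≠ 0) (A : Type u) [CommRing A] (hA : (N : A) = 0)
    (Γ : Type u) [Group Γ] (φ : Γ →* GL (Fin 2) A)
    (htf : ∀ (g : Γ) (n : ℕ), 0 < n → φ g ^ n = 1 → φ g = 1)
    (hker : InRC φ.ker) : H19.InL Γ := by
  refine gl2_gen hU (fun Γ _ Y h _ => hT Γ Y h) N hN A hA Γ φ htf fun H _ f hf hh => ?_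
  have h1 : InRC H := H91.inRC_of_injective (f.codRestrict φ.ker hh)
    (fun a b h => hf (congrArg Subtype.val h)) hker
  exact ⟨h1, hRL H h1⟩

/-- The kernel is trivial. -/
theorem gl2_inj {𝒞 : (G : Type u) → [Group G] → Prop} (hU : NT.H66.ClosedLoc 𝒞)
    (hT : TreesRC 𝒞) (h1 : ∀ (G : Type u) [Group G], (∀ g : G, g = 1) → 𝒞 G)
    (N : ℕ) (hN : N ≠ 0) (A : Type u) [CommRing A] (hA : (N : A) = 0)
    (Γ : Type u) [Group Γ] (htf : TorsionFree Γ) (φ : Γ →* GL (Fin 2) A)
    (hφ : Function.Injective φ) : 𝒞 Γ := by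
  refine gl2_gen hU hT N hN A hA Γ φ (fun g n hn h => ?_) fun H _ f hf hh => ?_
  · rw [← map_pow] at h
    rw [htf g n hn (hφ (h.trans (map_one φ).symm)), map_one]
  · have h2 : ∀ h : H, h = 1 := fun h => hf (by
      rw [map_one]
      exact hφ ((hh h).trans (map_one φ).symm))
    exact ⟨inRC_of_inN (inN_of_subsingleton H h2), h1 H h2⟩

end Pool.Agent.NegK.NT92
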