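import Pool.Agent.Lib.MP_28303a_al.TT.H76.BT

/-! # The tree of `GL₂` of a discretely valued field

The vertices are those of `BT.lean` for the square of the valuation; a matrix acts by substitution
and division by the value of its determinant. -/

set_option autoImplicit false

namespace Pool.Agent.NegK.NT92

universe u

open WithZero
open Pool.Agent.NegK.TW
open Pool.Agent.NegK.TT.H76

section val

variable {K : Type u} [Field K] (v : Valuation K ℤᵐ⁰)

theorem formd (p q r s d : K) (hd0 : d ≠ 0) (hd : p * s - q * r = d) (h : ℤ) :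
    ∃ (a' : K) (h' : ℤ), Even (h' - (h - log (v d))) ∧
      ∀ x y, max (exp h * v (p * x + q * y) ^ 2) (exp (-h) * v (r * x + s * y) ^ 2) * (v d)⁻¹ =
        Qf v a' h' x y := by
  have hvd : v d ≠ 0 := (map_ne_zero v).2 hd0
  obtain ⟨a', h', he, hf⟩ := form v p q (r / d) (s / d) (by field_simp; exact hd)
    (h - log (v d))
  refine ⟨a', h', he, fun x y => ?_⟩
  rw [← hf x y, max_mul]
  congr 1
  · have : (exp (h - log (v d)) : ℤᵐ⁰) = exp h * (v d)⁻¹ := by
      rw [sub_eq_add_neg, exp_add, exp_neg, exp_log hvd]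
    rw [this]
    ac_rfl
  · have h1 : r / d * x + s / d * y = (r * x + s * y) / d := by ring
    have h2 : (exp (-(h - log (v d))) : ℤᵐ⁰) = exp (-h) * v d := by
      rw [neg_sub, sub_eq_add_neg, exp_add, exp_log hvd, mul_comm]
    rw [h1, h2, map_div₀, div_pow, div_eq_mul_inv, sq (v d), mul_inv]
    have h3 : v d * (v d)⁻¹ = 1 := mul_inv_cancel₀ hvd
    calc exp (-h) * v (r * x + s * y) ^ 2 * (v d)⁻¹
        = exp (-h) * v (r * x + s * y) ^ 2 * (v d)⁻¹ * 1 := (mul_one _).symm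
      _ = exp (-h) * v (r * x + s * y) ^ 2 * (v d)⁻¹ * (v d * (v d)⁻¹) := by rw [h3]
      _ = _ := by ac_rfl

/-- The determinant as an element of the field. -/
noncomputable def dt (g : GL (Fin 2) K) : K := g.1.det

theorem dt_ne (g : GL (Fin 2) K) : dt g ≠ 0 :=
  ((Matrix.isUnit_iff_isUnit_det _).1 g.isUnit).ne_zero

theorem dt_mul (g g' : GL (Fin 2) K) : dt (g * g') = dt g * dt g' := by
  show (g.1 * g'.1).det = _
  rw [Matrix.det_mul]
  rfl

theorem dt_one : dt (1 : GL (Fin 2) K) = 1 := Matrix.det_one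

theorem dt_eq (g : GL (Fin 2) K) : dt g = g.1 0 0 * g.1 1 1 - g.1 0 1 * g.1 1 0 :=
  Matrix.det_fin_two _

theorem act_mem (g : GL (Fin 2) K) (a : K) (h : ℤ) :
    ∃ (a' : K) (h' : ℤ), Even (h' - (h - log (v (dt g)))) ∧
      (fun x y => Qf v a h (x * g.1 0 0 + y * g.1 1 0) (x * g.1 0 1 + y * g.1 1 1) *
        (v (dt g))⁻¹) = Qf v a' h' := by
  obtain ⟨a', h', he, hf⟩ := formd v (g.1 0 0 - a * g.1 0 1) (g.1 1 0 - a * g.1 1 1) (g.1 0 1)
    (g.1 1 1) (dt g) (dt_ne g) (by rw [dt_eq]; ring) h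
  refine ⟨a', h', he, ?_⟩
  funext x y
  rw [← hf x y, Qf]
  congr 4
  · congr 1
    ring
  · congr 1
    ring

/-- The action of the general linear group. -/
@[reducible] noncomputable def gAct : MulAction (GL (Fin 2) K) (Vx v) where
  smul g Q := ⟨fun x y => Q.1 (x * g.1 0 0 + y * g.1 1 0) (x * g.1 0 1 + y * g.1 1 1) *
      (v (dt g))⁻¹, by
    obtain ⟨Q, a, h, rfl⟩ := Q
    obtain ⟨a', h', -, he⟩ := act_mem v g a h
    exact ⟨a', h', he⟩⟩
  one_smul Q := by
    apply Subtype.ext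
    funext x y
    change Q.1 _ _ * _ = _
    rw [dt_one, map_one, inv_one, mul_one]
    simp
  mul_smul g g' Q := by
    apply Subtype.ext
    funext x y
    change Q.1 _ _ * _ = Q.1 _ _ * _ * _
    have e : ∀ i j, (g * g').1 i j = g.1 i 0 * g'.1 0 j + g.1 i 1 * g'.1 1 j := by
      intro i j
      change (g.1 * g'.1) i j = _
      rw [Matrix.mul_apply, Fin.sum_univ_two]
    rw [e, e, e, e, dt_mul, map_mul, mul_inv]
    rw [show x * (g.1 0 0 * g'.1 0 0 + g.1 0 1 * g'.1 1 0) +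
        y * (g.1 1 0 * g'.1 0 0 + g.1 1 1 * g'.1 1 0) =
      (x * g.1 0 0 + y * g.1 1 0) * g'.1 0 0 + (x * g.1 0 1 + y * g.1 1 1) * g'.1 1 0 by ring,
      show x * (g.1 0 0 * g'.1 0 1 + g.1 0 1 * g'.1 1 1) +
        y * (g.1 1 0 * g'.1 0 1 + g.1 1 1 * g'.1 1 1) =
      (x * g.1 0 0 + y * g.1 1 0) * g'.1 0 1 + (x * g.1 0 1 + y * g.1 1 1) * g'.1 1 1 by ring]
    ac_rfl

theorem gsmul_val (g : GL (Fin 2) K) (Q : Vx v) (x y : K) :
    letI := gAct v
    (g • Q).1 x y = Q.1 (x * g.1 0 0 + y * g.1 1 0) (x * g.1 0 1 + y * g.1 1 1) *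
      (v (dt g))⁻¹ := rfl

theorem hgt_gsmul (hv : ∀ x, Even (log (v x))) (g : GL (Fin 2) K) (Q : Vx v) :
    letI := gAct v
    Even (hgt v (g • Q) - hgt v Q) := by
  let _ := gAct v
  obtain ⟨a, h, rfl⟩ := exists_vx v Q
  obtain ⟨a', h', he, hf⟩ := act_mem v g a h
  have : g • vx v a h = vx v a' h' := Subtype.ext hf
  rw [this, hgt_vx, hgt_vx]
  obtain ⟨r, hr⟩ := hv (dt g)
  obtain ⟨s, hs⟩ := he
  exact ⟨s - r, by omega⟩

theorem gTreeAct (hv : ∀ x, Even (log (v x))) :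
    letI := gAct v
    TreeAct (GL (Fin 2) K) (gr v) := by
  let _ := gAct v
  refine ⟨isTree v, ?_, ?_⟩
  · rintro g Q Q' ⟨hne, h1, h2⟩
    refine ⟨fun h => hne (smul_left_cancel g h), fun x y => ?_, fun x y => ?_⟩
    · rw [gsmul_val, gsmul_val, ← mul_assoc]
      exact mul_le_mul' (h1 _ _) le_rfl
    · rw [gsmul_val, gsmul_val, ← mul_assoc]
      exact mul_le_mul' (h2 _ _) le_rfl
  · rintro g Q Q' hadj ⟨h1, -⟩
    have h3 := hgt_gsmul v hv g Q
    rw [h1] at h3
    rcases (adj_iff v Q Q').1 hadj with h | h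
    · rw [h, hgt_par] at h3
      obtain ⟨r, hr⟩ := h3
      omega
    · have h4 := hgt_par v Q'
      rw [← h] at h4
      obtain ⟨r, hr⟩ := h3
      omega

/-- A matrix whose determinant has value `1`, with a fixed vertex, has an integral trace. -/
theorem gtrace_le (g : GL (Fin 2) K) (hg1 : v (dt g) = 1) (Q : Vx v)
    (hg : letI := gAct v; g • Q = Q) : v (g.1.trace) ≤ 1 := by
  let _ := gAct v
  obtain ⟨a, h, rfl⟩ := exists_vx v Q
  have hdet : g.1 0 0 * g.1 1 1 - g.1 0 1 * g.1 1 0 = dt g := (dt_eq g).symm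
  have e : ∀ x y, Qf v a h (x * g.1 0 0 + y * g.1 1 0) (x * g.1 0 1 + y * g.1 1 1) =
      Qf v a h x y := by
    intro x y
    have h1 := congrFun (congrFun (congrArg Subtype.val hg) x) y
    rw [gsmul_val, hg1, inv_one, mul_one] at h1
    exact h1
  have e0 : Qf v a h (dt g) 0 = Qf v a h 1 0 := by
    simp [Qf, hg1]
  have e' : Qf v a h (g.1 1 1) (-g.1 0 1) = Qf v a h 1 0 := by
    rw [← e, ← e0]
    congr 1
    · linear_combination hdet
    · ring
  have e1 : Qf v a h (g.1 0 0) (g.1 0 1) = Qf v a h 1 0 := by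
    have := e 1 0
    simpa using this
  have h1 := Qf_add_le v a h (g.1 0 0) (g.1 0 1) (g.1 1 1) (-g.1 0 1)
  rw [e', e1, max_self, add_neg_cancel, Qf_one_zero] at h1
  have h2 : Qf v a h (g.1 0 0 + g.1 1 1) 0 = exp h * v (g.1.trace) ^ 2 := by
    rw [Matrix.trace_fin_two]
    simp [Qf]
  rw [h2] at h1
  have h3 : v (g.1.trace) ^ 2 ≤ 1 := by
    have h4 : (exp (-h) : ℤᵐ⁰) * (exp h * v (g.1.trace) ^ 2) ≤ exp (-h) * exp h := by gcongr
    rwa [← mul_assoc, ← exp_add, neg_add_cancel, exp_zero, one_mul] at h4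
  exact (pow_le_one_iff (two_ne_zero)).1 h3

/-- The square of a valuation. -/
noncomputable def sqv : Valuation K ℤᵐ⁰ :=
  v.map (powMonoidWithZeroHom (two_ne_zero)) fun _ _ h => pow_le_pow_left' h 2

theorem sqv_apply (x : K) : sqv v x = v x ^ 2 := rfl

theorem sqv_even (x : K) : Even (log (sqv v x)) := by
  rw [sqv_apply, log_pow]
  exact ⟨log (v x), by simp [two_mul]⟩

end val

/-- **Row BTG**: `GL₂` of a field with a valuation in the integers acts on a tree without
inversions, such that every element with a fixed vertex whose determinant has value `1` has an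
integral trace. -/
theorem btg (K : Type u) [Field K] (v : Valuation K ℤᵐ⁰) :
    ∃ (V : Type u) (_ : MulAction (GL (Fin 2) K) V) (G : SimpleGraph V),
      TreeAct (GL (Fin 2) K) G ∧
      ∀ (g : GL (Fin 2) K) (x : V), g • x = x → v (g.1.det) = 1 → v (g.1.trace) ≤ 1 := by
  refine ⟨Vx (sqv v), gAct (sqv v), gr (sqv v), gTreeAct (sqv v) (sqv_even v),
    fun g x h h1 => ?_⟩
  have h2 := gtrace_le (sqv v) g (by
    show v (g.1.det) ^ 2 = 1
    rw [h1, one_pow]) x h
  rw [sqv_apply] at h2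
  exact (pow_le_one_iff (two_ne_zero)).1 h2

end Pool.Agent.NegK.NT92
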