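import Pool.Agent.Lib.MP_28303a_al.NT92.Btg
import Pool.Agent.Lib.MP_28303a_al.NT.H66.Sl2
import Pool.Agent.Lib.MP_28303a_al.NT.H66.Line
import Pool.Agent.Lib.MP_28303a_al.NT.H66.Nilp

/-! # Torsionfree subgroups of `GL₂(A)`, `A` a commutative ring of positive characteristic

The class `𝒞` of groups is closed under directed unions and contains the groups which act on
finitely many trees such that no `g ≠ 1` fixes a vertex of every tree. -/

set_option autoImplicit false
set_option linter.unusedSectionVars false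

namespace Pool.Agent.NegK.NT92

universe u v

open Matrix WithZero Pool.Agent.NegK.TT Pool.Agent.NegK.TW

theorem sq_eq {K : Type u} [Field K] (g : GL (Fin 2) K) :
    (g : Matrix (Fin 2) (Fin 2) K) * g =
      Matrix.trace (g : Matrix (Fin 2) (Fin 2) K) • (g : Matrix (Fin 2) (Fin 2) K) -
        (g : Matrix (Fin 2) (Fin 2) K).det • 1 := by
  rw [Matrix.det_fin_two]
  ext i j
  fin_cases i <;> fin_cases j <;>
    simp [Matrix.mul_apply, Fin.sum_univ_two, Matrix.trace, Matrix.diag] <;>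
    ring1

/-- If the trace and the determinant of `g` are algebraic over the prime field then `g` has finite
order. -/
theorem tor2 (K : Type u) [Field K] (p : ℕ) [Fact p.Prime] [Algebra (ZMod p) K]
    (g : GL (Fin 2) K)
    (ht : IsAlgebraic (ZMod p) (Matrix.trace (g : Matrix (Fin 2) (Fin 2) K)))
    (hd : IsAlgebraic (ZMod p) (g : Matrix (Fin 2) (Fin 2) K).det) :
    ∃ n : ℕ, 0 < n ∧ g ^ n = 1 := by
  set t : K := Matrix.trace (g : Matrix (Fin 2) (Fin 2) K) with htd
  set d : K := (g : Matrix (Fin 2) (Fin 2) K).det with hdd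
  have hfg : (Subalgebra.toSubmodule (Algebra.adjoin (ZMod p) {t, d})).FG :=
    fg_adjoin_of_finite (Set.toFinite _) (by
      rintro x (rfl | rfl)
      · exact ht.isIntegral
      · exact hd.isIntegral)
  have : Module.Finite (ZMod p) (Algebra.adjoin (ZMod p) {t, d}) := Module.Finite.iff_fg.2 hfg
  have : Finite (Algebra.adjoin (ZMod p) {t, d}) := Module.finite_of_finite (ZMod p)
  let E := Algebra.adjoin (ZMod p) {t, d}
  have htE : t ∈ E := Algebra.subset_adjoin (Or.inl rfl)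
  have hdE : d ∈ E := Algebra.subset_adjoin (Or.inr rfl)
  let f : E × E → Matrix (Fin 2) (Fin 2) K := fun ab =>
    (ab.1 : K) • (1 : Matrix (Fin 2) (Fin 2) K) + (ab.2 : K) • (g : Matrix (Fin 2) (Fin 2) K)
  have hpow : ∀ n : ℕ, ((g ^ n : GL (Fin 2) K) : Matrix (Fin 2) (Fin 2) K) ∈
      Set.range f := by
    intro n
    induction n with
    | zero =>
      refine ⟨(1, 0), ?_⟩
      show ((1 : E) : K) • (1 : Matrix (Fin 2) (Fin 2) K) + ((0 : E) : K) •
        (g : Matrix (Fin 2) (Fin 2) K) = _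
      rw [pow_zero, OneMemClass.coe_one, ZeroMemClass.coe_zero, one_smul, zero_smul, add_zero]
      rfl
    | succ n ih =>
      obtain ⟨⟨a, b⟩, hab⟩ := ih
      refine ⟨(-(b * ⟨d, hdE⟩), a + b * ⟨t, htE⟩), ?_⟩
      rw [pow_succ, Units.val_mul, ← hab]
      show (-(b * d) : K) • (1 : Matrix (Fin 2) (Fin 2) K) + (a + b * t : K) •
        (g : Matrix (Fin 2) (Fin 2) K) = ((a : K) • (1 : Matrix (Fin 2) (Fin 2) K) + (b : K) •
        (g : Matrix (Fin 2) (Fin 2) K)) * g
      rw [add_mul, smul_mul_assoc, smul_mul_assoc, one_mul, sq_eq, smul_sub, smul_smul, smul_smul,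
        ← htd, ← hdd, add_smul, neg_smul]
      abel
  obtain ⟨m, n, hmn, he⟩ := Finite.exists_ne_map_eq_of_infinite
    (fun n : ℕ => (⟨_, hpow n⟩ : Set.range f))
  have he' : g ^ m = g ^ n := Units.ext (congrArg Subtype.val he)
  rcases lt_or_gt_of_ne hmn with hlt | hlt
  · refine ⟨n - m, by omega, ?_⟩
    rw [pow_sub g hlt.le, ← he', mul_inv_cancel]
  · refine ⟨m - n, by omega, ?_⟩
    rw [pow_sub g hlt.le, he', mul_inv_cancel]

/-- Families of trees. -/
def HasTrees (Γ : Type u) [Group Γ] (P : Γ → Prop) : Prop :=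
  ∃ (ι : Type u) (_ : Finite ι) (V : ι → Type u) (_ : ∀ i, MulAction Γ (V i))
    (T : ∀ i, SimpleGraph (V i)), (∀ i, TreeAct Γ (T i)) ∧
    ∀ (g : Γ) (x : ∀ i, V i), (∀ i, g • x i = x i) → P g

theorem hasTrees_all {Γ : Type u} [Group Γ] {κ : Type u} [Finite κ] (P : κ → Γ → Prop)
    (h : ∀ k, HasTrees Γ (P k)) : HasTrees Γ (fun g => ∀ k, P k g) := by
  choose ι hι V iV T hT1 hT2 using h
  have := hι
  refine ⟨Σ k, ι k, inferInstance, fun i => V i.1 i.2, fun i => iV i.1 i.2, fun i => T i.1 i.2,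
    fun i => hT1 i.1 i.2, fun g x hx k => ?_⟩
  exact hT2 k g (fun i => x ⟨k, i⟩) fun i => hx ⟨k, i⟩

theorem HasTrees.mono {Γ : Type u} [Group Γ] {P Q : Γ → Prop} (h : HasTrees Γ P)
    (hPQ : ∀ g, P g → Q g) : HasTrees Γ Q := by
  obtain ⟨ι, hι, V, iV, T, hT1, hT2⟩ := h
  exact ⟨ι, hι, V, iV, T, hT1, fun g x hx => hPQ g (hT2 g x hx)⟩

theorem hasTrees_and {Γ : Type u} [Group Γ] {P Q : Γ → Prop} (hP : HasTrees Γ P)
    (hQ : HasTrees Γ Q) : HasTrees Γ (fun g => P g ∧ Q g) :=
  (hasTrees_all (κ := ULift.{u} Bool) (fun b g => if b.down then P g else Q g) (by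
    rintro ⟨b⟩
    cases b
    · simpa using hQ
    · simpa using hP)).mono fun g h => ⟨by simpa using h ⟨true⟩, by simpa using h ⟨false⟩⟩

/-- The trees of a domain of characteristic `p`. -/
theorem trees_dom (p : ℕ) [Fact p.Prime] (A : Type u) [CommRing A] [IsDomain A]
    [Algebra (ZMod p) A] [Algebra.FiniteType (ZMod p) A] (Γ : Type u) [Group Γ]
    (φ : Γ →* GL (Fin 2) A) : HasTrees Γ (fun g => ∃ n : ℕ, 0 < n ∧ φ g ^ n = 1) := by
  let L := FractionRing A
  obtain ⟨m, v, hv⟩ := NT.H66.exists_vals p A L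
  have hinj : Function.Injective (algebraMap A L) := IsFractionRing.injective A L
  let φ' : Γ →* GL (Fin 2) L := (GeneralLinearGroup.map (algebraMap A L)).comp φ
  have hdet : ∀ g, (φ' g : Matrix (Fin 2) (Fin 2) L).det =
      algebraMap A L ((φ g : Matrix (Fin 2) (Fin 2) A).det) := by
    intro g
    rw [Matrix.det_fin_two, Matrix.det_fin_two, map_sub, map_mul, map_mul]
    rfl
  have htr : ∀ g, Matrix.trace (φ' g : Matrix (Fin 2) (Fin 2) L) =
      algebraMap A L (Matrix.trace (φ g : Matrix (Fin 2) (Fin 2) A)) := by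
    intro g
    rw [Matrix.trace_fin_two, Matrix.trace_fin_two, map_add]
    rfl
  -- the characters
  have hne : ∀ i g, v i ((φ' g : Matrix (Fin 2) (Fin 2) L).det) ≠ 0 := fun i g =>
    (map_ne_zero (v i)).2 (((Matrix.isUnit_iff_isUnit_det _).1 (φ' g).isUnit).ne_zero)
  let χ : Fin m → Γ →* Multiplicative ℤ := fun i =>
    { toFun := fun g => Multiplicative.ofAdd (log (v i ((φ' g : Matrix (Fin 2) (Fin 2) L).det)))
      map_one' := by
        rw [map_one, Units.val_one, Matrix.det_one, map_one, log_one]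
        rfl
      map_mul' := fun g g' => by
        rw [map_mul, Units.val_mul, Matrix.det_mul, map_mul, log_mul (hne i g) (hne i g')]
        rfl }
  have hχ : ∀ i g, χ i g = 1 → v i ((φ' g : Matrix (Fin 2) (Fin 2) L).det) = 1 := by
    intro i g h
    have h1 : log (v i ((φ' g : Matrix (Fin 2) (Fin 2) L).det)) = 0 := h
    rw [← exp_log (hne i g), h1, exp_zero]
  have h1 : ∀ k : ULift.{u} (Fin m), HasTrees Γ fun g =>
      v k.down ((φ' g : Matrix (Fin 2) (Fin 2) L).det) = 1 := by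
    rintro ⟨k⟩
    obtain ⟨V, iV, T, hT1, hT2⟩ := NT.H66.line Γ (χ k)
    exact ⟨PUnit, inferInstance, fun _ => V, fun _ => iV, fun _ => T, fun _ => hT1,
      fun g x hx => hχ k g (hT2 g (x ⟨⟩) (hx ⟨⟩))⟩
  have h2 : ∀ k : ULift.{u} (Fin m), HasTrees Γ fun g =>
      v k.down ((φ' g : Matrix (Fin 2) (Fin 2) L).det) = 1 →
        v k.down ((φ' g : Matrix (Fin 2) (Fin 2) L).trace) ≤ 1 := by
    rintro ⟨k⟩
    obtain ⟨V, iV, T, hT1, hT2⟩ := btg L (v k)
    refine ⟨PUnit, inferInstance, fun _ => V, fun _ => MulAction.compHom V φ', fun _ => T,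
      fun _ => treeAct_hom hT1 φ', fun g x hx h => hT2 (φ' g) (x ⟨⟩) (hx ⟨⟩) h⟩
  refine (hasTrees_and (hasTrees_all _ h1) (hasTrees_all _ h2)).mono fun g hg => ?_
  obtain ⟨n, hn, h⟩ := tor2 L p (φ' g)
    (by
      rw [htr]
      exact (hv _ fun i => by
        rw [← htr]
        exact hg.2 ⟨i⟩ (hg.1 ⟨i⟩)).algebraMap)
    (by
      rw [hdet]
      exact (hv _ fun i => by
        rw [← hdet]
        exact (hg.1 ⟨i⟩).le).algebraMap)
  refine ⟨n, hn, Units.ext ?_⟩
  ext i j
  apply hinj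
  have h3 : GeneralLinearGroup.map (algebraMap A L) (φ g ^ n) = 1 := by
    rw [map_pow]
    exact h
  have h4 := congrArg (fun y : GL (Fin 2) L => (y : Matrix (Fin 2) (Fin 2) L) i j) h3
  refine Eq.trans h4 ?_
  rw [Units.val_one, Units.val_one, Matrix.one_apply, Matrix.one_apply]
  split_ifs <;> simp

/-- The trees of a finitely generated ring of positive characteristic. -/
theorem trees_ring (N : ℕ) [NeZero N] (A : Type u) [CommRing A] [Algebra (ZMod N) A]
    [Algebra.FiniteType (ZMod N) A] (Γ : Type u) [Group Γ]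
    (φ : Γ →* GL (Fin 2) A) : HasTrees Γ (fun g => ∃ n : ℕ, 0 < n ∧ φ g ^ n = 1) := by
  have hA : IsNoetherianRing A := Algebra.FiniteType.isNoetherianRing (ZMod N) A
  have hfin : Finite (minimalPrimes A) := (minimalPrimes.finite_of_isNoetherianRing A).to_subtype
  refine (hasTrees_all (κ := minimalPrimes A) (fun P g => ∃ n : ℕ, 0 < n ∧
    (GeneralLinearGroup.map (Ideal.Quotient.mk P.1) (φ g)) ^ n = 1) fun P => ?_).mono
    fun g hg => NT.H66.nilp (ZMod N) (φ g) fun P hP => hg ⟨P, hP⟩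
  have hP : P.1.IsPrime := Ideal.IsMinimalPrime.isPrime P.2
  obtain ⟨p, hp⟩ := CharP.exists (A ⧸ P.1)
  have hN : ((N : ℕ) : A ⧸ P.1) = 0 := by
    have h1 : ((N : ℕ) : ZMod N) = 0 := ZMod.natCast_self N
    have h2 := congrArg (algebraMap (ZMod N) (A ⧸ P.1)) h1
    rw [map_zero, map_natCast] at h2
    exact h2
  have hp0 : p ≠ 0 := by
    rintro rfl
    have := (CharP.cast_eq_zero_iff (A ⧸ P.1) 0 N).1 hN
    exact NeZero.ne N (by simpa using this)
  have hpp : Fact p.Prime := ⟨(CharP.char_is_prime_or_zero (A ⧸ P.1) p).resolve_right hp0⟩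
  let i1 : Algebra (ZMod p) (A ⧸ P.1) := ZMod.algebra _ p
  have i2 : Algebra.FiniteType ℤ (A ⧸ P.1) := by
    have h1 : Algebra.FiniteType ℤ A := by
      have h3 : Algebra.FiniteType ℤ (ZMod N) :=
        Algebra.FiniteType.of_surjective (Algebra.ofId ℤ (ZMod N)) (ZMod.intCast_surjective)
      have : IsScalarTower ℤ (ZMod N) A := IsScalarTower.of_algebraMap_eq' (RingHom.ext_int _ _)
      exact Algebra.FiniteType.trans h3 inferInstance
    exact Algebra.FiniteType.of_surjective (Ideal.Quotient.mkₐ ℤ P.1) Ideal.Quotient.mk_surjective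
  have i3 : IsScalarTower ℤ (ZMod p) (A ⧸ P.1) :=
    IsScalarTower.of_algebraMap_eq' (RingHom.ext_int _ _)
  have i4 : Algebra.FiniteType (ZMod p) (A ⧸ P.1) :=
    Algebra.FiniteType.of_restrictScalars_finiteType ℤ (ZMod p) (A ⧸ P.1)
  exact trees_dom p (A ⧸ P.1) Γ ((GeneralLinearGroup.map (Ideal.Quotient.mk P.1)).comp φ)

/-- Reindexing. -/
theorem HasTrees.fin {Γ : Type u} [Group Γ] {P : Γ → Prop} (h : HasTrees Γ P) :
    ∃ (m : ℕ) (V : Fin m → Type u) (_ : ∀ i, MulAction Γ (V i))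
    (T : ∀ i, SimpleGraph (V i)), (∀ i, TreeAct Γ (T i)) ∧
    ∀ (g : Γ) (x : ∀ i, V i), (∀ i, g • x i = x i) → P g := by
  obtain ⟨ι, hι, V, iV, T, hT1, hT2⟩ := h
  obtain ⟨m, ⟨e⟩⟩ := Finite.exists_equiv_fin ι
  refine ⟨m, fun i => V (e.symm i), fun i => iV (e.symm i), fun i => T (e.symm i),
    fun i => hT1 _, fun g x hx => ?_⟩
  by_cases hne : ∀ i, Nonempty (V i)
  · refine hT2 g (fun i => cast (congrArg V (e.symm_apply_apply i)) (x (e i))) fun i => ?_
    have h1 := hx (e i)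
    have key : ∀ (j : ι) (hj : j = i) (y : V j), (iV j).toSMul.smul g y = y →
        (iV i).toSMul.smul g (cast (congrArg V hj) y) = cast (congrArg V hj) y := by
      rintro j rfl y hy
      exact hy
    exact key _ (e.symm_apply_apply i) _ h1
  · push Not at hne
    obtain ⟨i, hi⟩ := hne
    have h1 : V (e.symm (e i)) := x (e i)
    rw [e.symm_apply_apply] at h1
    exact hi.elim h1

/-- **Row RED.** Torsionfree subgroups of `GL₂(A)`, `A` a commutative ring of positive
characteristic. -/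
theorem gl2_ring {𝒞 : (G : Type u) → [Group G] → Prop} (hC : NT.H66.ClosedLoc 𝒞)
    (hT : NT.H66.TreesIn 𝒞) (N : ℕ) (hN : N ≠ 0) (A : Type u) [CommRing A] (hA : (N : A) = 0)
    (Γ : Type u) [Group Γ] (htf : TorsionFree Γ) (φ : Γ →* GL (Fin 2) A)
    (hφ : Function.Injective φ) : 𝒞 Γ := by
  classical
  have : NeZero N := ⟨hN⟩
  obtain ⟨c, hc⟩ := CharP.exists A
  let _ : Algebra (ZMod N) A := ZMod.algebra' A c ((CharP.cast_eq_zero_iff A c N).1 hA)
  refine hC Γ fun S => ⟨Subgroup.closure (S : Set Γ), fun s hs => Subgroup.subset_closure hs, ?_⟩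
  let R : Finset A := S.biUnion fun s => Finset.univ.biUnion fun i : Fin 2 =>
    Finset.univ.biUnion fun j : Fin 2 => {(φ s : Matrix (Fin 2) (Fin 2) A) i j,
      ((φ s)⁻¹ : GL (Fin 2) A).1 i j}
  let B : Subalgebra (ZMod N) A := Algebra.adjoin (ZMod N) (R : Set A)
  have hB : Algebra.FiniteType (ZMod N) B :=
    (Subalgebra.fg_iff_finiteType B).1 ⟨R, rfl⟩
  have hinj : Function.Injective (GeneralLinearGroup.map (n := Fin 2) (algebraMap B A)) := by
    intro g g' h
    refine Units.ext ?_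
    ext i j
    exact congrArg (fun x : GL (Fin 2) A => (x : Matrix (Fin 2) (Fin 2) A) i j) h
  have hcl : Subgroup.closure (S : Set Γ) ≤
      (GeneralLinearGroup.map (n := Fin 2) (algebraMap B A)).range.comap φ := by
    rw [Subgroup.closure_le]
    intro s hs
    have hmem : ∀ i j, (φ s : Matrix (Fin 2) (Fin 2) A) i j ∈ B ∧
        ((φ s)⁻¹ : GL (Fin 2) A).1 i j ∈ B := fun i j => by
      constructor
      all_goals
        refine Algebra.subset_adjoin (Finset.mem_coe.2 (Finset.mem_biUnion.2 ⟨s, hs,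
          Finset.mem_biUnion.2 ⟨i, Finset.mem_univ _, Finset.mem_biUnion.2
            ⟨j, Finset.mem_univ _, ?_⟩⟩⟩))
        simp
    refine ⟨⟨Matrix.of fun i j => ⟨_, (hmem i j).1⟩, Matrix.of fun i j => ⟨_, (hmem i j).2⟩,
      ?_, ?_⟩, ?_⟩
    · ext i j
      have h1 := congrArg (fun x : Matrix (Fin 2) (Fin 2) A => x i j) (φ s).mul_inv
      rw [Matrix.mul_apply, Fin.sum_univ_two] at h1 ⊢
      refine Eq.trans h1 ?_
      rw [Matrix.one_apply, Matrix.one_apply]
      split_ifs <;> rfl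
    · ext i j
      have h1 := congrArg (fun x : Matrix (Fin 2) (Fin 2) A => x i j) (φ s).inv_mul
      rw [Matrix.mul_apply, Fin.sum_univ_two] at h1 ⊢
      refine Eq.trans h1 ?_
      rw [Matrix.one_apply, Matrix.one_apply]
      split_ifs <;> rfl
    · refine Units.ext ?_
      ext i j
      rfl
  let e := (MonoidHom.ofInjective hinj).symm
  let ψ : Subgroup.closure (S : Set Γ) →* GL (Fin 2) B :=
    e.toMonoidHom.comp ((φ.comp (Subgroup.closure (S : Set Γ)).subtype).codRestrict _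
      fun g => hcl g.2)
  have hψ : Function.Injective ψ := fun g g' h =>
    Subtype.ext (hφ (congrArg Subtype.val (e.injective h)))
  obtain ⟨m, V, iV, T, hT1, hT2⟩ := (trees_ring N B _ ψ).fin
  refine hT _ m V iV T hT1 fun g x hx => ?_
  obtain ⟨n, hn, h⟩ := hT2 g x hx
  rw [← map_pow] at h
  have h1 : g ^ n = 1 := hψ (h.trans (map_one ψ).symm)
  refine Subtype.ext (htf g.1 n hn ?_)
  have := congrArg Subtype.val h1
  simpa using this

end Pool.Agent.NegK.NT92
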